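import Pool.Agent.Y577.BT.W

set_option autoImplicit false

/-!
# The total rank inequality in every degree; sums of consecutive Betti numbers

Let `M` be a module of finite length over a polynomial ring `S` in `m` variables over a field of
characteristic zero, supported at the origin and graded by an abelian group `Γ` so that `X_j` has
degree `deg j`, and let `β_i` be the rank of the `i`-th module of a resolution of `M` by finite free
modules. For every `E` in `Γ` the number of pairs of a subset `J` of the variables and a member of a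
homogeneous basis of `M` of degree `a` such that `2 a + ∑ j ∈ J, deg j = E` is at most
`∑ i, W_i * β_i`, where `W_i` is any number `≥ dim M_a` for all `a` such that
`a + b + ∑ j ∈ J, deg j = E` with some `b`, `M_b ≠ 0`, and some `J` with `i` elements.

For the trivial grading this is the total rank inequality `2 ^ m ≤ ∑ β_i`. For the standard grading
and `M_a = 0` for `a` outside `{0, …, s}` it says that
`∑ a, m.choose (e - 2 a) * dim M_a ≤ (max dim M_a) * ∑ i ∈ {e - 2 s, …, e}, β_i` for every `e`: the
sum of any `2 s + 1` consecutive Betti numbers is at least a binomial coefficient.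

The proof: the swap acts on the Koszul complex of `M ⊗ M` which computes `Tor (M, M)`, and in every
internal degree all summands of its Lefschetz number are nonnegative.
-/

namespace Pool.Agent.Results.MP_e2ce73_al.ConsecutiveBettiNumbers

open MvPolynomial Pool.Agent.W650 Pool.Agent.Y577.BT

universe u v x

/-- **The result.** -/
theorem result (k : Type u) [Field k] [CharZero k] (m : ℕ)
    (M : Type v) [AddCommGroup M] [Module k M] [FiniteDimensional k M]
    [Module (MvPolynomial (Fin m) k) M] [IsScalarTower k (MvPolynomial (Fin m) k) M]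
    (Γ : Type x) [AddCommGroup Γ] [DecidableEq Γ] (deg : Fin m → Γ) (ℳ : Γ → Submodule k M)
    (hℳ : DirectSum.IsInternal ℳ)
    (hX : ∀ (j : Fin m) (a : Γ), ∀ x ∈ ℳ a,
      (X j : MvPolynomial (Fin m) k) • x ∈ ℳ (a + deg j))
    (hnil : ∀ j : Fin m, ∃ N : ℕ, ∀ x : M, (X j : MvPolynomial (Fin m) k) ^ N • x = 0)
    (R : FreeRes (MvPolynomial (Fin m) k) M) (E : Γ) (W : ℕ → ℕ)
    (hW : ∀ (a b : Γ) (J : Finset (Fin m)), ℳ a ≠ ⊥ → ℳ b ≠ ⊥ → a + b + ∑ j ∈ J, deg j = E →
      Module.finrank k (ℳ a) ≤ W J.card) (s : Finset Γ) :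
    ∑ J : Finset (Fin m), ∑ a ∈ s, (if a + a + ∑ j ∈ J, deg j = E then
      Module.finrank k (ℳ a) else 0) ≤
      ∑ i ∈ Finset.range (m + 1), W i * R.rank i := by
  classical
  have hreg : RegularSeq (fun j => (X j : MvPolynomial (Fin m) k)) := by
    intro l s hs
    exact X_regular (Set.Iio l) l (by simp) s hs
  have hspan : ∀ s : MvPolynomial (Fin m) k ⧸
      Ideal.span (Set.range fun j => (X j : MvPolynomial (Fin m) k)),
      ∃ c : k, c • (1 : MvPolynomial (Fin m) k ⧸
        Ideal.span (Set.range fun j => (X j : MvPolynomial (Fin m) k))) = s := by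
    intro s
    obtain ⟨p, rfl⟩ := Ideal.Quotient.mk_surjective s
    refine ⟨constantCoeff p, ?_⟩
    have : (constantCoeff p) • (1 : MvPolynomial (Fin m) k ⧸
        Ideal.span (Set.range fun j => (X j : MvPolynomial (Fin m) k))) =
        Ideal.Quotient.mk _ (C (constantCoeff p)) := by
      have h3 : (C (constantCoeff p) : MvPolynomial (Fin m) k) =
          (constantCoeff p) • (1 : MvPolynomial (Fin m) k) := by
        rw [smul_eq_C_mul, mul_one]
      rw [h3]
      rfl
    rw [this, Ideal.Quotient.eq]
    exact (mem_span_X_iff (C (constantCoeff p) - p)).2 (by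
      rw [map_sub, constantCoeff_C, sub_self])
  have hfin : Module.Finite k (MvPolynomial (Fin m) k ⧸
      Ideal.span (Set.range fun j => (X j : MvPolynomial (Fin m) k))) := by
    refine ⟨⟨{1}, ?_⟩⟩
    rw [eq_top_iff]
    intro s _
    obtain ⟨c, rfl⟩ := hspan s
    exact Submodule.smul_mem _ c (Submodule.subset_span (by simp))
  have h1 : Module.finrank k (MvPolynomial (Fin m) k ⧸
      Ideal.span (Set.range fun j => (X j : MvPolynomial (Fin m) k))) ≤ 1 :=
    finrank_le_one _ hspan
  have h := window k _ m (fun j => (X j : MvPolynomial (Fin m) k)) hreg M Γ deg ℳ hℳ hX hnil R E W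
    hW s
  refine h.trans ?_
  calc _ ≤ 1 * ∑ i ∈ Finset.range (m + 1), W i * R.rank i := Nat.mul_le_mul_right _ h1
    _ = _ := one_mul _

/-- The case of the standard grading: the sum of `2 s + 1` consecutive Betti numbers is at least a
binomial coefficient. -/
theorem standard (k : Type u) [Field k] [CharZero k] (m : ℕ)
    (M : Type v) [AddCommGroup M] [Module k M] [FiniteDimensional k M] [Nontrivial M]
    [Module (MvPolynomial (Fin m) k) M] [IsScalarTower k (MvPolynomial (Fin m) k) M]
    (ℳ : ℤ → Submodule k M) (hℳ : DirectSum.IsInternal ℳ)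
    (hX : ∀ (j : Fin m) (a : ℤ), ∀ x ∈ ℳ a, (X j : MvPolynomial (Fin m) k) • x ∈ ℳ (a + 1))
    (s : ℕ) (hs : ∀ a, ℳ a ≠ ⊥ → 0 ≤ a ∧ a ≤ s) (R : FreeRes (MvPolynomial (Fin m) k) M) :
    ∃ t ≤ s, ∀ j : ℕ, m.choose (j + 2 * t) ≤ ∑ i ∈ Finset.Icc j (j + 2 * s), R.rank i := by
  classical
  -- a largest piece
  obtain ⟨b, hbs, hb⟩ := Finset.exists_max_image (Finset.range (s + 1))
    (fun a : ℕ => Module.finrank k (ℳ (a : ℤ))) ⟨0, by simp⟩
  have hbs' : b ≤ s := by simpa [Nat.lt_succ_iff] using hbs
  have hmax : ∀ a : ℤ, Module.finrank k (ℳ a) ≤ Module.finrank k (ℳ (b : ℤ)) := by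
    intro a
    by_cases ha : ℳ a = ⊥
    · rw [ha, finrank_bot]
      exact Nat.zero_le _
    · obtain ⟨h1, h2⟩ := hs a ha
      obtain ⟨c, rfl⟩ := Int.eq_ofNat_of_zero_le h1
      exact hb c (Finset.mem_range.2 (by omega))
  have hpos : 0 < Module.finrank k (ℳ (b : ℤ)) := by
    by_contra hcon
    have h0 : ∀ a, ℳ a = ⊥ := by
      intro a
      have := hmax a
      exact Submodule.finrank_eq_zero.1 (by omega)
    have h5 : (⊤ : Submodule k M) = ⊥ := by
      rw [← hℳ.submodule_iSup_eq_top]
      simp [h0]
    exact bot_ne_top h5.symm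
  have hnil : ∀ j : Fin m, ∃ N : ℕ, ∀ x : M, (X j : MvPolynomial (Fin m) k) ^ N • x = 0 := by
    intro j
    have hpow : ∀ (n : ℕ) (a : ℤ), ∀ x ∈ ℳ a,
        (X j : MvPolynomial (Fin m) k) ^ n • x ∈ ℳ (a + n) := by
      intro n
      induction n with
      | zero => intro a x hx; simpa using hx
      | succ n ih =>
        intro a x hx
        have := hX j _ _ (ih a x hx)
        rw [smul_smul, ← pow_succ'] at this
        push_cast
        rwa [add_assoc] at this
    refine ⟨s + 1, fun x => ?_⟩
    have hx : x ∈ ⨆ p, ℳ p := by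
      rw [hℳ.submodule_iSup_eq_top]
      exact Submodule.mem_top
    induction hx using Submodule.iSup_induction' with
    | mem a x hx =>
      by_cases ha : ℳ a = ⊥
      · rw [ha, Submodule.mem_bot] at hx
        rw [hx, smul_zero]
      · have h1 := hpow (s + 1) a x hx
        have h2 : ℳ (a + (s + 1 : ℕ)) = ⊥ := by
          by_contra hcon
          have := (hs _ hcon).2
          have := (hs _ ha).1
          push_cast at *
          omega
        rw [h2, Submodule.mem_bot] at h1
        exact h1
    | zero => rw [smul_zero]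
    | add x y _ _ hx hy => rw [smul_add, hx, hy, add_zero]
  refine ⟨s - b, Nat.sub_le _ _, fun j => ?_⟩
  let Wf : ℕ → ℕ := fun i =>
    if i ∈ Finset.Icc j (j + 2 * s) then Module.finrank k (ℳ (b : ℤ)) else 0
  have h := result k m M ℤ (fun _ => 1) ℳ hℳ hX hnil R ((j + 2 * s : ℕ) : ℤ) Wf (by
      intro a a' J ha ha' hE
      have h1 := hs a ha
      have h2 := hs a' ha'
      rw [Finset.sum_const, nsmul_eq_mul, mul_one] at hE
      have h3 : J.card ∈ Finset.Icc j (j + 2 * s) := by
        rw [Finset.mem_Icc]
        push_cast at hE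
        omega
      simp only [Wf, if_pos h3]
      exact hmax a) {(b : ℤ)}
  have hl : m.choose (j + 2 * (s - b)) * Module.finrank k (ℳ (b : ℤ)) ≤
      ∑ J : Finset (Fin m), ∑ a ∈ ({(b : ℤ)} : Finset ℤ), (if a + a + ∑ _j ∈ J, (1 : ℤ) =
        ((j + 2 * s : ℕ) : ℤ) then Module.finrank k (ℳ a) else 0) := by
    have h1 : ∀ J : Finset (Fin m), ∑ a ∈ ({(b : ℤ)} : Finset ℤ), (if a + a + ∑ _j ∈ J, (1 : ℤ) =
        ((j + 2 * s : ℕ) : ℤ) then Module.finrank k (ℳ a) else 0) =
        if J.card = j + 2 * (s - b) then Module.finrank k (ℳ (b : ℤ)) else 0 := by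
      intro J
      rw [Finset.sum_singleton, Finset.sum_const, nsmul_eq_mul, mul_one]
      by_cases hJ : J.card = j + 2 * (s - b)
      · rw [if_pos hJ, if_pos]
        rw [hJ]
        push_cast [Nat.cast_sub hbs']
        ring
      · rw [if_neg hJ, if_neg]
        intro h'
        apply hJ
        push_cast at h'
        omega
    rw [Finset.sum_congr rfl fun J _ => h1 J, ← Finset.sum_filter, Finset.sum_const, smul_eq_mul]
    have h2 : (Finset.univ.filter (fun J : Finset (Fin m) => J.card = j + 2 * (s - b))).card =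
        m.choose (j + 2 * (s - b)) := by
      have : Finset.univ.filter (fun J : Finset (Fin m) => J.card = j + 2 * (s - b)) =
          (Finset.univ : Finset (Fin m)).powersetCard (j + 2 * (s - b)) := by
        ext J
        simp [Finset.mem_powersetCard]
      rw [this, Finset.card_powersetCard, Finset.card_univ, Fintype.card_fin]
    rw [h2]
  have hr : ∑ i ∈ Finset.range (m + 1), Wf i * R.rank i ≤
      Module.finrank k (ℳ (b : ℤ)) * ∑ i ∈ Finset.Icc j (j + 2 * s), R.rank i := by
    rw [Finset.mul_sum]
    have h1 : ∀ i, Wf i * R.rank i = if i ∈ Finset.Icc j (j + 2 * s) then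
        Module.finrank k (ℳ (b : ℤ)) * R.rank i else 0 := by
      intro i
      by_cases hi : i ∈ Finset.Icc j (j + 2 * s)
      · simp only [Wf, if_pos hi]
      · simp only [Wf, if_neg hi, zero_mul]
    rw [Finset.sum_congr rfl fun i _ => h1 i, ← Finset.sum_filter]
    refine Finset.sum_le_sum_of_subset fun i hi => (Finset.mem_filter.1 hi).2
  have h9 := hl.trans (h.trans hr)
  rw [mul_comm] at h9
  exact Nat.le_of_mul_le_mul_left h9 hpos

end Pool.Agent.Results.MP_e2ce73_al.ConsecutiveBettiNumbers
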