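import Pool.Agent.Y577.BT.R

set_option autoImplicit false

/-!
# Lower bounds for every single Betti number of a module of finite length

Let `M` be a nonzero module of finite length over a polynomial ring `S` in `m` variables over a
field of characteristic zero, supported at the origin, and let `β_i` be the rank of the `i`-th
module in a resolution of `M` by finite free modules. Then

* `m.choose i ≤ W * β_i` if the `i`-fold sums of degrees meet every translate of a grading of `M`
  in dimension at most `W` (for a standard graded `M`: if every graded piece has dimension `≤ W`);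
* `(m.choose i) ^ 2 ≤ e * β_i ^ 2`, more precisely `(m.choose i) ^ 2 * dim M ≤ W * e * β_i ^ 2`, if
  `M` is annihilated by a complete intersection `(g_1, …, g_m)` with `e = dim S / (g)`.

Both come from one inequality (`Pool.Agent.Y577.BT.general`) for a module over any algebra with a
regular sequence `f_1, …, f_m`, regarded as a module over the subalgebra generated by the `f_j`:
the trace makes the Koszul homology of the trivial module a direct summand of that of `Hom (N, N)`.
-/

namespace Pool.Agent.Results.MP_e2ce73_al.IndividualBettiBounds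

open MvPolynomial Pool.Agent.Y577.BT

universe u v x

/-- **The result.** -/
theorem result (k : Type u) [Field k] [CharZero k] (m : ℕ)
    (M : Type v) [AddCommGroup M] [Module k M] [FiniteDimensional k M] [Nontrivial M]
    [Module (MvPolynomial (Fin m) k) M] [IsScalarTower k (MvPolynomial (Fin m) k) M]
    (Γ : Type x) [AddCommGroup Γ] [DecidableEq Γ] (deg : Fin m → Γ) (ℳ : Γ → Submodule k M)
    (hℳ : DirectSum.IsInternal ℳ)
    (hX : ∀ (j : Fin m) (a : Γ), ∀ x ∈ ℳ a,
      (X j : MvPolynomial (Fin m) k) • x ∈ ℳ (a + deg j))
    (hnil : ∀ j : Fin m, ∃ N : ℕ, ∀ x : M, (X j : MvPolynomial (Fin m) k) ^ N • x = 0)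
    (R : FreeRes (MvPolynomial (Fin m) k) M) (i W : ℕ) (hW : DegBound k deg i ℳ W) :
    m.choose i ≤ W * R.rank i ∧
    ∀ (g : Fin m → MvPolynomial (Fin m) k) (_ : RegularSeq g)
      [Module.Finite k (MvPolynomial (Fin m) k ⧸ Ideal.span (Set.range g))]
      (_ : ∀ j, ∀ x : M, g j • x = 0),
      (m.choose i) ^ 2 * Module.finrank k M ≤
        W * Module.finrank k (MvPolynomial (Fin m) k ⧸ Ideal.span (Set.range g)) *
          (R.rank i) ^ 2 ∧
      (m.choose i) ^ 2 ≤
        Module.finrank k (MvPolynomial (Fin m) k ⧸ Ideal.span (Set.range g)) *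
          (R.rank i) ^ 2 :=
  ⟨graded k m M Γ deg ℳ hℳ hX hnil R i W hW, fun g hg _ hgM =>
    ⟨square k m M Γ deg ℳ hℳ hX hnil R i W hW g hg hgM,
      ungraded k m M hnil R i g hg hgM⟩⟩

end Pool.Agent.Results.MP_e2ce73_al.IndividualBettiBounds
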