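import Pool.Agent.Y150.BE.Main

/-!
# Betti numbers of graded modules of finite length and low regularity
-/

set_option autoImplicit false

namespace Pool.Agent.Results.MP_e2ce73_al.LowRegularity

open Pool.Agent.Y150.BE

/-- Let `β` be the table of the graded Betti numbers of a graded module of finite length over the
polynomial ring in `n` variables (with the standard grading), generated in degree `0`, with first
syzygies in degrees at least `a` and `n`-th syzygies in degrees at most `D` (that is, of regularity
at most `D - n`), and let `b i` be the Betti numbers. Then the inequalities (1), (2), (3) hold. -/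
theorem result {n : ℕ} (β : Fin (n + 1) → ℤ → ℕ) (a D : ℕ) (h : Within β a D)
    (b : Fin (n + 1) → ℕ) (hb : ∀ i, IsTotal β i (b i)) :
    (∀ i : Fin (n + 1), i ≠ 0 →
      (a + i.val - 2).choose (i.val - 1) * D.choose (n - i.val) * b 0
        ≤ b i * (D - a).choose (n - 1)) ∧
    (1 ≤ n → (D + a) ^ (n - 1) * b 0 ≤ (∑ i : Fin n, b i.succ) * (D - a) ^ (n - 1)) ∧
    (4 ≤ n → ∀ (i : Fin (n + 1)) (c : ℕ), 1 ≤ i.val → i.val + 2 ≤ n → c ≤ b 0 →
      c * (D - a) ^ (n - 1) ≤ 2 * b 0 * a ^ (n - 1) → n.choose i.val * c ≤ b i) :=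
  ⟨fun i hi => binom h hi (hb 0) (hb i), fun hn => total h hn hb,
    fun hn i _ h1 h2 hc hD => beh h hn h1 h2 (hb 0) (hb i) hc hD⟩

end Pool.Agent.Results.MP_e2ce73_al.LowRegularity
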